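import Pool.Agent.V11288.LZ.ParG

/-!
# The central order and leading coefficient of triple product `L`-functions from Hecke eigenvalues

Let `f`, `g`, `h` be the eigenforms of weights `k`, `1`, `1` in the problem and `S` a set of primes, for example
all primes not dividing the levels.  For `p ∈ S` let `a_{p,i}`, `b_{p,i}`, `c_{p,i}` (`i = 1, 2`) be the roots of the
Hecke polynomials of `f`, `g`, `h` at `p`: `a_{p,1} + a_{p,2} = a_p(f)`, `a_{p,1} a_{p,2} = χ_f(p) p^{k-1}`, and so on;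
`|a_{p,i}| = p^{(k-1)/2}` (Deligne), `|b_{p,i}| = |c_{p,i}| = 1` (Deligne–Serre).  Since `χ_f χ_g χ_h = 1`, the power
sums

`t_p(n) = (a_{p,1}^n + a_{p,2}^n) (b_{p,1}^n + b_{p,2}^n) (c_{p,1}^n + c_{p,2}^n)`

are real.  Let `L(s)` be the Euler product of `∏_{i,j,l} (1 - a_{p,i} b_{p,j} c_{p,l} p^{-s})⁻¹`, `p ∈ S`, for
`Re s > (k+1)/2`; the factors at the other finitely many primes do not change the order at `s = k/2`.  `L` is
meromorphic (Garrett; only the points of the real interval `[k/2, (k+1)/2]` are needed).  For `γ ≥ 0` and `X > 1`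
let, with `u = n log p / log X`,

`W_γ(X) = ∑_{p ∈ S} ∑_{n ≥ 1} t_p(n) / (n p^{nk/2}) · e^{iγu} / Γ(1 + u)`,

and `V_γ(X)` the same sum with `cos(γu)` instead of `e^{iγu}`.

1. For `γ > π/2`: `W_γ(X) = log |L^*(k/2)| - iπz - r (log log X - Λ_γ) + O(1/log X)`, where `r` is the order and
   `L^*(k/2)` the leading coefficient of `L` at `k/2`, `z` the number of zeros minus the number of poles of `L` on
   the real half line `(k/2, ∞)` and `Λ_γ = ∫_0^∞ (e^{-t} - e^{iγt}/Γ(1+t)) dt/t`.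

2. For `γ > π/2`: `ord_{s=k/2} L = r` if and only if `V_γ(X) = -r log log X + O(1)`.  With `r` the dimension in Q1
   this is Q1 for `(f, g, h)`.

3. For `0 ≤ γ < π/2`: `V_γ(X) = -r log log X + O(1)` if and only if `ord_{s=k/2} L = r` and `L` has neither zeros nor
   poles on the real half line `(k/2, ∞)`.

Proof.  `Pool.Agent.V11288.LZ`, built on `Pool.Agent.V11290.UL`.
-/

set_option autoImplicit false

namespace Pool.Agent.Results.MP_60ff09_nt.TripleProductsByPrimes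

open Filter Topology Set

variable {S : Set Nat.Primes}

/-- `a`, `b`, `c` are the roots of the Hecke polynomials at the primes in `S`, with Hecke eigenvalues
`x f`, `x g`, `x h` and values of the characters `ε f`, `ε g`, `ε h` (indices `0, 1, 2`), weights `k, 1, 1`. -/
structure IsTriple (k : ℕ) (x ε : Fin 3 → S → ℂ) (a b c : S → Fin 2 → ℂ) : Prop where
  char : ∀ p, ε 0 p * ε 1 p * ε 2 p = 1
  sum_a : ∀ p, a p 0 + a p 1 = x 0 p
  prod_a : ∀ p, a p 0 * a p 1 = ε 0 p * ((p.1 : ℕ) : ℂ) ^ (k - 1)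
  sum_b : ∀ p, b p 0 + b p 1 = x 1 p
  prod_b : ∀ p, b p 0 * b p 1 = ε 1 p
  sum_c : ∀ p, c p 0 + c p 1 = x 2 p
  prod_c : ∀ p, c p 0 * c p 1 = ε 2 p
  norm_a : ∀ p i, ‖a p i‖ = ((p.1 : ℕ) : ℝ) ^ (((k : ℝ) - 1) / 2)
  norm_b : ∀ p i, ‖b p i‖ = 1
  norm_c : ∀ p i, ‖c p i‖ = 1

/-- The Euler factor `∏_{i,j,l} (1 - a_{p,i} b_{p,j} c_{p,l} p^{-s})⁻¹`. -/
noncomputable def factor (a b c : S → Fin 2 → ℂ) (p : S) (s : ℂ) : ℂ :=
  ∏ y : Fin 2 × Fin 2 × Fin 2, (1 - a p y.1 * b p y.2.1 * c p y.2.2 * ((p.1 : ℕ) : ℂ) ^ (-s))⁻¹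

/-- `L` is the Euler product for `Re s > (k+1)/2`, meromorphic at the points of `[k/2, (k+1)/2]`. -/
structure IsLFunction (k : ℕ) (a b c : S → Fin 2 → ℂ) (L : ℂ → ℂ) : Prop where
  mero : ∀ x ∈ Icc ((k : ℝ) / 2) (((k : ℝ) + 1) / 2), MeromorphicAt L (x : ℂ)
  prod : ∀ s : ℂ, ((k : ℝ) + 1) / 2 < s.re → L s = ∏' p, factor a b c p s

/-- The term of `W_γ(X)` at `(p, n)`. -/
noncomputable def term (k : ℕ) (a b c : S → Fin 2 → ℂ) (γ X : ℝ) (p : S) (n : ℕ) : ℂ :=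
  (∑ i, a p i ^ n) * (∑ i, b p i ^ n) * (∑ i, c p i ^ n) /
    (n * ((((p.1 : ℕ) : ℝ) ^ ((k : ℝ) / 2) : ℝ) : ℂ) ^ n) *
    (Complex.exp ((γ * (n * Real.log (p.1 : ℕ) / Real.log X) : ℝ) * Complex.I) /
      (Real.Gamma (1 + n * Real.log (p.1 : ℕ) / Real.log X) : ℂ))

/-- `W_γ(X)`, the sum over `p ∈ S` and `n ≥ 1` (here `n = x.2 + 1`). -/
noncomputable def W (k : ℕ) (a b c : S → Fin 2 → ℂ) (γ X : ℝ) : ℂ :=
  ∑' x : S × ℕ, term k a b c γ X x.1 (x.2 + 1)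

/-- `V_γ(X)`, the sum of the real parts of the terms. -/
noncomputable def V (k : ℕ) (a b c : S → Fin 2 → ℂ) (γ X : ℝ) : ℝ :=
  ∑' x : S × ℕ, (term k a b c γ X x.1 (x.2 + 1)).re

/-- `Λ_γ = ∫_0^∞ (e^{-t} - e^{iγt} / Γ(1 + t)) dt / t`. -/
noncomputable def Lam (γ : ℝ) : ℂ := ∫ t in Ioi (0 : ℝ),
  (Complex.exp (-(t : ℂ)) - Complex.exp ((γ * t : ℝ) * Complex.I) * ((Real.Gamma (1 + t))⁻¹ : ℝ)) / t

/-- The order of `L` at the real point `x` is `r`. -/
def OrderAt (L : ℂ → ℂ) (x : ℝ) (r : ℤ) : Prop := meromorphicOrderAt L (x : ℂ) = r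

/-- The order at `k/2` is `r` and the leading coefficient is `l`. -/
def LeadingAt (L : ℂ → ℂ) (k : ℕ) (r : ℤ) (l : ℝ) : Prop :=
  l ≠ 0 ∧ OrderAt L ((k : ℝ) / 2) r ∧
    Tendsto (fun s : ℂ => L s / (s - k / 2) ^ r) (𝓝[≠] ((k : ℂ) / 2)) (𝓝 l)

/-- The number of the zeros minus the number of the poles of `L` on the real half line `(k/2, ∞)`. -/
noncomputable def excess (L : ℂ → ℂ) (k : ℕ) : ℤ :=
  ∑ᶠ x ∈ Ioi ((k : ℝ) / 2), (meromorphicOrderAt L (x : ℂ)).untop₀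

/-- `V_γ(X) = -r log log X + O(1)` for `X → ∞`. -/
def BoundedLaw (k : ℕ) (a b c : S → Fin 2 → ℂ) (γ : ℝ) (r : ℤ) : Prop :=
  ∃ C X₀ : ℝ, ∀ X ≥ X₀, |V k a b c γ X + r * Real.log (Real.log X)| ≤ C

open Pool.Agent.V11288.LZ

/-- the family of the products -/
def fam (a b c : S → Fin 2 → ℂ) (p : S) (y : Fin 2 × Fin 2 × Fin 2) : ℂ := a p y.1 * b p y.2.1 * c p y.2.2

theorem fam_sum (a b c : S → Fin 2 → ℂ) (p : S) (n : ℕ) :
    ∑ y, fam a b c p y ^ n = (∑ i, a p i ^ n) * (∑ i, b p i ^ n) * (∑ i, c p i ^ n) := by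
  rw [mul_assoc, Finset.sum_mul_sum, Fintype.sum_prod_type]
  simp_rw [Finset.sum_mul_sum, Finset.mul_sum]
  refine Finset.sum_congr rfl fun i _ => ?_
  rw [Fintype.sum_prod_type]
  refine Finset.sum_congr rfl fun j _ => Finset.sum_congr rfl fun l _ => ?_
  unfold fam
  rw [mul_pow, mul_pow, mul_assoc]

/-- the power sums are real -/
theorem fam_real {k : ℕ} {x ε : Fin 3 → S → ℂ} {a b c : S → Fin 2 → ℂ} (h : IsTriple k x ε a b c)
    (hk : 1 ≤ k) (p : S) (n : ℕ) : (∑ y, fam a b c p y ^ n).im = 0 := by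
  have hp0 : (0 : ℝ) < ((p.1 : ℕ) : ℝ) := by exact_mod_cast p.1.2.pos
  have hq : ((((p.1 : ℕ) : ℝ) ^ (((k : ℝ) - 1) / 2)) ^ 2 : ℝ) = ((p.1 : ℕ) : ℝ) ^ (k - 1) := by
    rw [← Real.rpow_natCast, ← Real.rpow_mul hp0.le, ← Real.rpow_natCast]
    congr 1
    push_cast [Nat.cast_sub hk]
    ring
  -- conjugates
  have key : ∀ (Q : ℝ) (z w E : ℂ), z * w = E → z * (starRingEnd ℂ) z = Q → z ≠ 0 →
      (starRingEnd ℂ) z * E = Q * w := by
    intro Q z w E h1 h2 h3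
    rw [← h1, ← mul_assoc, mul_comm ((starRingEnd ℂ) z) z, h2]
  have hns : ∀ z : ℂ, z * (starRingEnd ℂ) z = ((‖z‖ ^ 2 : ℝ) : ℂ) := by
    intro z
    rw [Complex.mul_conj, Complex.normSq_eq_norm_sq]
  have hpc : ((p.1 : ℕ) : ℂ) ^ (k - 1) ≠ 0 := pow_ne_zero _ (by exact_mod_cast p.1.2.ne_zero)
  have ha : ∀ i, (starRingEnd ℂ) (a p i) * ε 0 p = a p (1 - i) := by
    intro i
    have h1 : a p i * a p (1 - i) = ε 0 p * ((p.1 : ℕ) : ℂ) ^ (k - 1) := by
      fin_cases i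
      · exact h.prod_a p
      · rw [mul_comm]
        exact h.prod_a p
    have h2 := hns (a p i)
    rw [h.norm_a, hq] at h2
    have h3 : a p i ≠ 0 := by
      rw [← norm_ne_zero_iff, h.norm_a]
      positivity
    have h4 := key _ _ _ _ h1 h2 h3
    push_cast at h4
    refine mul_right_cancel₀ hpc ?_
    linear_combination h4
  have hb : ∀ i, (starRingEnd ℂ) (b p i) * ε 1 p = b p (1 - i) := by
    intro i
    have h1 : b p i * b p (1 - i) = ε 1 p := by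
      fin_cases i
      · exact h.prod_b p
      · rw [mul_comm]
        exact h.prod_b p
    have h2 := hns (b p i)
    rw [h.norm_b] at h2
    have h3 : b p i ≠ 0 := by
      rw [← norm_ne_zero_iff, h.norm_b]
      exact one_ne_zero
    have h4 := key _ _ _ _ h1 h2 h3
    rw [h4]
    push_cast
    ring
  have hc : ∀ i, (starRingEnd ℂ) (c p i) * ε 2 p = c p (1 - i) := by
    intro i
    have h1 : c p i * c p (1 - i) = ε 2 p := by
      fin_cases i
      · exact h.prod_c p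
      · rw [mul_comm]
        exact h.prod_c p
    have h2 := hns (c p i)
    rw [h.norm_c] at h2
    have h3 : c p i ≠ 0 := by
      rw [← norm_ne_zero_iff, h.norm_c]
      exact one_ne_zero
    have h4 := key _ _ _ _ h1 h2 h3
    rw [h4]
    push_cast
    ring
  have hfam : ∀ y : Fin 2 × Fin 2 × Fin 2,
      (starRingEnd ℂ) (fam a b c p y) = fam a b c p (1 - y.1, 1 - y.2.1, 1 - y.2.2) := by
    intro y
    unfold fam
    rw [← ha, ← hb, ← hc, map_mul, map_mul]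
    have := h.char p
    linear_combination (-((starRingEnd ℂ) (a p y.1) * (starRingEnd ℂ) (b p y.2.1) *
      (starRingEnd ℂ) (c p y.2.2))) * this
  rw [← Complex.conj_eq_iff_im, map_sum]
  have hi : ∀ i : Fin 2, 1 - (1 - i) = i := by decide
  let σ : Fin 2 × Fin 2 × Fin 2 ≃ Fin 2 × Fin 2 × Fin 2 :=
    { toFun := fun y => (1 - y.1, 1 - y.2.1, 1 - y.2.2)
      invFun := fun y => (1 - y.1, 1 - y.2.1, 1 - y.2.2)
      left_inv := fun y => by simp only [hi]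
      right_inv := fun y => by simp only [hi] }
  refine Fintype.sum_equiv σ _ _ fun y => ?_
  rw [map_pow, hfam]
  rfl

/-- **Triple product `L`-functions at the centre from Hecke eigenvalues.** -/
theorem result (k : ℕ) (hk : 2 ≤ k) (x ε : Fin 3 → S → ℂ) (a b c : S → Fin 2 → ℂ)
    (h : IsTriple k x ε a b c) (L : ℂ → ℂ) (hL : IsLFunction k a b c L) :
    (∀ γ : ℝ, Real.pi / 2 < γ → ∃ (r : ℤ) (l : ℝ), LeadingAt L k r l ∧
      (fun X : ℝ => W k a b c γ X - (Real.log |l| - Complex.I * Real.pi * excess L k -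
        r * (Real.log (Real.log X) - Lam γ))) =O[atTop] (fun X : ℝ => 1 / Real.log X)) ∧
    (∀ (γ : ℝ) (r : ℤ), Real.pi / 2 < γ → (OrderAt L ((k : ℝ) / 2) r ↔ BoundedLaw k a b c γ r)) ∧
    ∀ (γ : ℝ) (r : ℤ), 0 ≤ γ → γ < Real.pi / 2 →
      (BoundedLaw k a b c γ r ↔ OrderAt L ((k : ℝ) / 2) r ∧ ∀ x : ℝ, (k : ℝ) / 2 < x → OrderAt L x 0) := by
  have E : Eul 1 (((k : ℝ) - 1) / 2) (fun p : S => ((p.1 : ℕ) : ℝ)) (gmat (fam a b c)) := by
    refine eul_q fun p z hz => ?_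
    obtain ⟨j, rfl⟩ := groots hz
    unfold fam
    rw [norm_mul, norm_mul, h.norm_a, h.norm_b, h.norm_c, mul_one, mul_one]
  have hm : ∀ y ∈ Icc ((k : ℝ) / 2) (1 + ((k : ℝ) - 1) / 2), MeromorphicAt L (y : ℂ) := fun y hy =>
    hL.mero y ⟨hy.1, by linarith [hy.2]⟩
  have hp : ∀ s : ℂ, 1 + ((k : ℝ) - 1) / 2 < s.re → L s = ∏' p : S,
      ((1 - (((p.1 : ℕ) : ℝ) : ℂ) ^ (-s) • gmat (fam a b c) p).det)⁻¹ := by
    intro s hs
    rw [hL.prod s (by linarith), gprod]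
    refine tprod_congr fun p => ?_
    push_cast
    rfl
  have hreal : ∀ (p : S) (n : ℕ), ((gmat (fam a b c) p) ^ n).trace.im = 0 := by
    intro p n
    rw [gtr]
    exact fam_real h (by omega) p n
  have hterm : ∀ (γ X : ℝ) (y : S × ℕ),
      tm (fun p : S => ((p.1 : ℕ) : ℝ)) (gmat (fam a b c)) ((k : ℝ) / 2) γ X y =
        term k a b c γ X y.1 (y.2 + 1) := by
    intro γ X y
    rw [gterm_eq]
    unfold gterm term wt
    rw [fam_sum]
  have hW : ∀ γ X : ℝ, tot (fun p : S => ((p.1 : ℕ) : ℝ)) (gmat (fam a b c)) ((k : ℝ) / 2) γ X =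
      W k a b c γ X := fun γ X => tsum_congr fun y => hterm γ X y
  have hV : ∀ γ : ℝ, vot (fun p : S => ((p.1 : ℕ) : ℝ)) (gmat (fam a b c)) ((k : ℝ) / 2) γ =
      V k a b c γ := by
    intro γ
    funext X
    unfold vot V
    refine tsum_congr fun y => ?_
    rw [rtm_eq hreal, hterm]
  obtain ⟨h1, h2, h3, -⟩ := E.real hreal ((k : ℝ) / 2) hm hp
  have hc2 : (((k : ℝ) / 2 : ℝ) : ℂ) = (k : ℂ) / 2 := by push_cast; rfl
  refine ⟨fun γ hγ => ?_, fun γ r hγ => ?_, fun γ r hγ hγ2 => ?_⟩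
  · obtain ⟨r, l, h5, h6, h7, h8⟩ := h1 γ hγ
    refine ⟨r, l, ⟨h5, h6, by rw [hc2] at h7; exact h7⟩, ?_⟩
    refine h8.congr_left fun X => ?_
    rw [hW]
    show _ = W k a b c γ X - (Real.log |l| - Complex.I * Real.pi * excessR L ((k : ℝ) / 2) -
        r * (Real.log (Real.log X) - Pool.Agent.W187.UR.Lam γ))
    ring
  · have h5 := h2 γ r hγ
    rw [hV] at h5
    exact h5.symm
  · have h5 := h3 γ r hγ hγ2
    rw [hV] at h5
    exact h5

end Pool.Agent.Results.MP_60ff09_nt.TripleProductsByPrimes
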